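import Mathlib
import Pool.Agent.H170.KD.Fin

/-!
# In every degree the quotient group of a self-covering need not be a Poincaré duality group

Let `X` be the Klein bottle `K`, with fundamental group `π = ⟨a, b | b a b⁻¹ = a⁻¹⟩`. For every
`d ≥ 2` it has a `d`-fold self-covering `q : X → X` inducing `a ↦ a⁻ᵈ`, `b ↦ a b` (up to a change
of generators); take `X' = X` and `h = id`. The intersection `G` of the images of the iterates is
the infinite cyclic central subgroup generated by `b²`: if `a^i b` were in `G` then `(d + 1) i` would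
be one. So `Q = π / G` is the infinite dihedral group. As `Q` has torsion, `K(Q, 1)` is not finitely
dominated.
-/

set_option autoImplicit false

namespace Pool.Agent.Results.MP_ffafe4_gt.EveryDegree

open Topology Set Pool.Agent.H350R3.Klein

universe u v w

/-- For every degree `d ≥ 2` there are a finite connected CW complex `X` (covered by the plane), a
covering `q : X' → X` of degree `d` and a base point preserving homotopy equivalence `h : X → X'`
such that the subgroup `G = ⋂_{k ≥ 1} im (h_#)^k` of `π₁(X)` is infinite cyclic and central,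
finitely presented and normal, but `Q = π₁(X) / G` is the infinite dihedral group and no
Eilenberg-MacLane space `K(Q, 1)` is finitely dominated. -/
theorem result (d : ℕ) (hd : 2 ≤ d) :
    ∃ S : SelfCovering, CWComplex.Finite (univ : Set S.X) ∧
      (∃ p : ℝ × ℝ → S.X, IsCoveringMap p ∧ Function.Surjective p) ∧
      S.degree = d ∧
      Nonempty (S.G ≃* Multiplicative ℤ) ∧
      Group.IsFinitelyPresented S.G ∧
      S.G ≤ Subgroup.center S.Pi1 ∧
      ∃ _ : S.G.Normal,
        Nonempty ((S.Pi1 ⧸ S.G) ≃* DihedralGroup 0) ∧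
        ∀ (Y : Type u) [TopologicalSpace Y],
          IsEilenbergMacLane.{u, 0, w} (S.Pi1 ⧸ S.G) Y → ¬ FinitelyDominated.{u, v} Y := by
  obtain ⟨n, rfl⟩ := Nat.exists_eq_add_of_le' hd
  refine ⟨Pool.Agent.H170.KD.kleinSelf n, kcw_finite, ⟨pr, pr_cov.isCoveringMap, pr_cov.surjective⟩,
    rfl, ⟨Pool.Agent.H170.KD.G_equiv n⟩, Pool.Agent.H170.KD.GG_fp n,
    Pool.Agent.H170.KD.GG_central n, Pool.Agent.H170.KD.GG_normal n,
    ⟨Pool.Agent.H170.KD.quot_equiv n (hN := Pool.Agent.H170.KD.GG_normal n)⟩, ?_⟩
  intro Y _ hY
  exact Pool.Agent.H170.KD.no_dom n (hN := Pool.Agent.H170.KD.GG_normal n) Y hY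

end Pool.Agent.Results.MP_ffafe4_gt.EveryDegree
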